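import Pool.Agent.H13.LN.Targets

/-!
# (AQP) no torsion in `A d`, from `ℚ` and `ℤ / p`
-/

set_option autoImplicit false

open Finset Pool.Agent.H59.LIN Pool.Agent.H13.LN

namespace Pool.Agent.H83.LNT

/-- homomorphisms to `ZMod p` separate the points of a group of exponent `p` -/
lemma dual_sep {V : Type} [AddCommGroup V] (p : ℕ) (hp : p.Prime) (hV : ∀ v : V, p • v = 0)
    (v : V) (h : ∀ W : V →+ ZMod p, W v = 0) : v = 0 := by
  have := Fact.mk hp
  have key : ∀ (_ : Module (ZMod p) V), v = 0 := by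
    intro m
    refine (Module.forall_dual_apply_eq_zero_iff (ZMod p) v).1 ?_
    intro f
    exact h f.toAddMonoidHom
  exact key (AddCommGroup.zmodModule hV)

/-- an element killed by all homomorphisms to `ZMod p` is a multiple of `p` -/
lemma exists_div {A : Type} [AddCommGroup A] (p : ℕ) (hp : p.Prime) (y : A)
    (hy : ∀ W : A →+ ZMod p, W y = 0) : ∃ z : A, p • z = y := by
  let H : AddSubgroup A := (nsmulAddMonoidHom p : A →+ A).range
  have hH : ∀ v : A ⧸ H, p • v = 0 := by
    intro v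
    obtain ⟨u, rfl⟩ := QuotientAddGroup.mk_surjective v
    rw [← QuotientAddGroup.mk_nsmul, QuotientAddGroup.eq_zero_iff]
    exact ⟨u, rfl⟩
  have h0 : (QuotientAddGroup.mk y : A ⧸ H) = 0 :=
    dual_sep p hp hH _ fun W => hy (W.comp (QuotientAddGroup.mk' H))
  rw [QuotientAddGroup.eq_zero_iff] at h0
  exact h0

theorem aqp (U : Type) [AddCommGroup U] (F : ℕ → AddSubgroup U) (A : ℕ → Type)
    [∀ d, AddCommGroup (A d)] : T_AQP U F A := by
  intro S p hp _ hY hF d x hx
  have hfin : Module.Finite ℤ (A d) := Module.Finite.iff_addGroup_fg.mpr (S.fg d)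
  have hno : ∀ z : U ⧸ F (d + 1), p • z = 0 → z = 0 := by
    intro z hz
    obtain ⟨u, rfl⟩ := QuotientAddGroup.mk_surjective z
    rw [← QuotientAddGroup.mk_nsmul, QuotientAddGroup.eq_zero_iff] at hz
    rw [QuotientAddGroup.eq_zero_iff]
    exact hF (d + 1) u hz
  let T : Submodule ℤ (A d) := LinearMap.ker (S.φ d).toIntLinearMap
  have hT : ∀ y : A d, y ∈ T ↔ S.φ d y = 0 := fun y => Iff.rfl
  let g : T →ₗ[ℤ] T := (p : ℤ) • LinearMap.id
  have hg : ∀ y : T, ((g y : T) : A d) = p • (y : A d) := by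
    intro y
    simp [g]
  have hsurj : Function.Surjective g := by
    intro y
    obtain ⟨z, hz⟩ := exists_div p hp (y : A d) (by
      intro W
      obtain ⟨v, hv⟩ := hY d W
      rw [← hv, (hT _).1 y.2, map_zero])
    have hzT : z ∈ T := by
      rw [hT]
      apply hno
      rw [← map_nsmul, hz]
      exact (hT _).1 y.2
    refine ⟨⟨z, hzT⟩, Subtype.ext ?_⟩
    rw [hg]
    exact hz
  have hinj := IsNoetherian.injective_of_surjective_endomorphism g hsurj
  have hxT : x ∈ T := by
    rw [hT]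
    apply hno
    rw [← map_nsmul, hx, map_zero]
  have h1 : g ⟨x, hxT⟩ = g 0 := by
    refine Subtype.ext ?_
    rw [hg, hg]
    simpa using hx
  have h2 := congrArg Subtype.val (hinj h1)
  exact h2

end Pool.Agent.H83.LNT
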