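import Pool.Agent.H13.LN.Targets

/-!
# (AYS) all groups, if there is no torsion
-/

set_option autoImplicit false

open Finset Pool.Agent.H59.LIN Pool.Agent.H13.LN

namespace Pool.Agent.H83.LNT

/-- a finitely generated torsion free abelian group is free -/
lemma free_of {M : Type} [AddCommGroup M] (hM : AddGroup.FG M)
    (h : ∀ (x : M) (m : ℤ), m ≠ 0 → m • x = 0 → x = 0) : Module.Free ℤ M := by
  have hfin : Module.Finite ℤ M := Module.Finite.iff_addGroup_fg.mpr hM
  have htf0 : IsAddTorsionFree M := by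
    refine ⟨fun n hn x y hxy => ?_⟩
    have h1 : (n : ℤ) • (x - y) = 0 := by
      rw [natCast_zsmul, smul_sub, sub_eq_zero]
      exact hxy
    exact sub_eq_zero.1 (h _ _ (by exact_mod_cast hn) h1)
  exact Module.free_of_finite_type_torsion_free'

theorem ays (U : Type) [AddCommGroup U] (F : ℕ → AddSubgroup U) (A : ℕ → Type)
    [∀ d, AddCommGroup (A d)] (hFGQ : T_FGQ U F A) : T_AYS U F A := by
  intro S hQ hA B _ d W
  -- no torsion in the quotients
  have hinjφ : ∀ d, Function.Injective (S.φ d) := by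
    intro d
    rw [injective_iff_map_eq_zero]
    intro y hy
    have hfree : Module.Free ℤ (A d) := free_of (S.fg d) (hA d)
    let b := Module.Free.chooseBasis ℤ (A d)
    apply b.ext_elem
    intro i
    obtain ⟨v, hv⟩ := hQ d ((Int.castAddHom ℚ).comp (b.coord i).toAddMonoidHom)
    have h1 := hv y
    rw [hy, map_zero] at h1
    have h2 : ((b.repr y i : ℤ) : ℚ) = 0 := h1.symm
    rw [map_zero, Finsupp.zero_apply]
    exact_mod_cast h2
  have htf : ∀ (d : ℕ) (x : U) (m : ℤ), m ≠ 0 → m • x ∈ F d → x ∈ F d := by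
    intro d
    induction d with
    | zero =>
      intro x m _ _
      rw [S.zero]
      trivial
    | succ d ih =>
      intro x m hm hx
      have h1 : x ∈ F d := ih x m hm (S.anti d hx)
      obtain ⟨a, ha⟩ := (S.rng d x).1 h1
      have h2 : m • a = 0 := by
        apply hinjφ d
        rw [map_zsmul, ha, map_zero, ← QuotientAddGroup.mk_zsmul, QuotientAddGroup.eq_zero_iff]
        exact hx
      have h3 := hA d a m hm h2
      rw [h3, map_zero] at ha
      exact (QuotientAddGroup.eq_zero_iff x).1 ha.symm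
  have hfree : Module.Free ℤ (U ⧸ F d) := by
    refine free_of (hFGQ S d) ?_
    intro z m hm hz
    obtain ⟨u, rfl⟩ := QuotientAddGroup.mk_surjective z
    rw [← QuotientAddGroup.mk_zsmul, QuotientAddGroup.eq_zero_iff] at hz
    rw [QuotientAddGroup.eq_zero_iff]
    exact htf d u m hm hz
  let π : U ⧸ F (d + 1) →+ U ⧸ F d :=
    QuotientAddGroup.map (F (d + 1)) (F d) (AddMonoidHom.id U) (S.anti d)
  have hπ : ∀ u : U, π (QuotientAddGroup.mk u) = QuotientAddGroup.mk u := fun u => rfl
  have hπs : Function.Surjective π.toIntLinearMap := by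
    intro z
    obtain ⟨u, rfl⟩ := QuotientAddGroup.mk_surjective z
    exact ⟨QuotientAddGroup.mk u, rfl⟩
  obtain ⟨s, hs⟩ := Module.projective_lifting_property π.toIntLinearMap
    (LinearMap.id : (U ⧸ F d) →ₗ[ℤ] (U ⧸ F d)) hπs
  have hs' : ∀ z, π (s z) = z := fun z => LinearMap.congr_fun hs z
  have hker : ∀ z, π z = 0 → ∃ a, S.φ d a = z := by
    intro z hz
    obtain ⟨u, rfl⟩ := QuotientAddGroup.mk_surjective z
    rw [hπ, QuotientAddGroup.eq_zero_iff] at hz
    exact (S.rng d u).1 hz
  have hφπ : ∀ a, π (S.φ d a) = 0 := by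
    intro a
    obtain ⟨u, hu⟩ := QuotientAddGroup.mk_surjective (S.φ d a)
    rw [← hu, hπ, QuotientAddGroup.eq_zero_iff]
    exact (S.rng d u).2 ⟨a, hu.symm⟩
  choose r hr using fun z : U ⧸ F (d + 1) => hker (z - s (π z)) (by
    rw [map_sub, hs', sub_self])
  have hradd : ∀ z w, r (z + w) = r z + r w := by
    intro z w
    apply hinjφ d
    rw [map_add, hr, hr, hr, map_add, map_add]
    abel
  refine ⟨W.comp (AddMonoidHom.mk' r hradd), ?_⟩
  intro a
  have h1 : r (S.φ d a) = a := by
    apply hinjφ d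
    rw [hr, hφπ, map_zero, sub_zero]
  show W (r (S.φ d a)) = W a
  rw [h1]

end Pool.Agent.H83.LNT
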