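import Pool.Agent.H13.LN.Targets

/-!
# (AZP) no torsion in `A d`, from the rings `ℤ / p ^ a`
-/

set_option autoImplicit false

open Finset Pool.Agent.H59.LIN Pool.Agent.H13.LN
open scoped DirectSum

namespace Pool.Agent.H83.LNT

/-- an element of order `p` of a finitely generated abelian group is detected by a homomorphism
to some `ZMod (p ^ a)` -/
lemma exists_hom {A : Type} [AddCommGroup A] (hA : AddGroup.FG A) (p : ℕ) (hp : p.Prime) (x : A)
    (hx : p • x = 0) (hx0 : x ≠ 0) : ∃ (a : ℕ) (W : A →+ ZMod (p ^ a)), W x ≠ 0 := by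
  classical
  obtain ⟨n, ι, _, q, hq, e, ⟨f⟩⟩ := AddCommGroup.equiv_free_prod_directSum_zmod A
  have h1 : p • f x = 0 := by rw [← map_nsmul, hx, map_zero]
  have h2 : (f x).1 = 0 := by
    have h3 : p • (f x).1 = 0 := by
      have := congrArg Prod.fst h1
      simpa using this
    ext j
    have h4 := DFunLike.congr_fun h3 j
    rw [Finsupp.smul_apply, Finsupp.zero_apply, nsmul_eq_mul] at h4
    rw [Finsupp.zero_apply]
    rcases mul_eq_zero.1 h4 with h5 | h5
    · exact absurd (by exact_mod_cast h5) hp.ne_zero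
    · exact h5
  have h3 : (f x).2 ≠ 0 := by
    intro h
    apply hx0
    apply f.injective
    rw [map_zero]
    exact Prod.ext h2 h
  let g := DirectSum.addEquivProd (fun i => ZMod (q i ^ e i))
  have h4 : g (f x).2 ≠ 0 := by
    intro h
    apply h3
    apply g.injective
    rw [h, map_zero]
  obtain ⟨i, hi⟩ := Function.ne_iff.1 h4
  rw [Pi.zero_apply] at hi
  let W0 : A →+ ZMod (q i ^ e i) := ((Pi.evalAddMonoidHom (fun i => ZMod (q i ^ e i)) i).comp
    g.toAddMonoidHom).comp ((AddMonoidHom.snd _ _).comp f.toAddMonoidHom)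
  have hW0 : W0 x ≠ 0 := hi
  have hpW : p • W0 x = 0 := by rw [← map_nsmul, hx, map_zero]
  have hqp : q i = p := by
    by_contra hne
    have hcop : Nat.Coprime p (q i ^ e i) :=
      Nat.Coprime.pow_right _ ((Nat.coprime_primes hp (hq i)).2 (fun h => hne h.symm))
    have hu : IsUnit ((p : ℕ) : ZMod (q i ^ e i)) := (ZMod.isUnit_iff_coprime p _).2 hcop
    rw [nsmul_eq_mul] at hpW
    exact hW0 ((hu.mul_right_eq_zero).1 hpW)
  subst hqp
  exact ⟨e i, W0, hW0⟩

theorem azp (U : Type) [AddCommGroup U] (F : ℕ → AddSubgroup U) (A : ℕ → Type)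
    [∀ d, AddCommGroup (A d)] : T_AZP U F A := by
  intro S p hp hY hF d x hx
  by_contra hx0
  obtain ⟨a, W, hW⟩ := exists_hom (S.fg d) p hp x hx hx0
  obtain ⟨v, hv⟩ := hY a d W
  have h1 : S.φ d x = 0 := by
    obtain ⟨u, hu⟩ := QuotientAddGroup.mk_surjective (S.φ d x)
    have h2 : p • (S.φ d x) = 0 := by rw [← map_nsmul, hx, map_zero]
    rw [← hu] at h2 ⊢
    rw [← QuotientAddGroup.mk_nsmul, QuotientAddGroup.eq_zero_iff] at h2
    rw [QuotientAddGroup.eq_zero_iff]
    exact hF (d + 1) u h2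
  apply hW
  rw [← hv x, h1, map_zero]

end Pool.Agent.H83.LNT
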